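import Pool.Agent.V7H67.LR.Blocks

/-!
# MP_25fb88_lc: Ladner's theorem in the real Blum–Shub–Smale model

If `P ≠ NP` over the reals (machines with arbitrary real constants), then some problem in `NP`
over the reals is neither in `P` over the reals nor complete.

The proof. For a problem `L` in `NP` and a set `S` of sizes let `L_S` be the restriction of `L` to
the sizes in `S`. As the digits of one real constant encode an arbitrary set `S`, all the `L_S`
are in `NP`, and the family `I` of the sets `S` with `L_S` in `P` is closed under subsets and
finite unions. By quantifier elimination over the reals, `L` is decided by a machine in a time
`T` depending only on the size: the digits of a real constant list, for every size, a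
semialgebraic condition in the input and in the constants of the machine for `L`, and the machine
evaluates the condition. In particular `I` contains the finite sets. Again by quantifier
elimination, the constants for which a given flow chart decides the inputs of one size correctly
form a Borel set. So `I` is the projection of a Borel set, hence analytic. The sizes are cut in
blocks, each very long compared with the ones before. As `I` is proper, the union of the blocks
whose number is `r` modulo `3` is outside of `I` for some `r`. An analytic proper ideal containing
the finite sets is not prime (analytic sets have the property of Baire), so these blocks are split
in two families with unions `S` and `W` both outside of `I`. Then `L_S` is not in `P`. If `L`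
reduced to `L_S`, then the reduction would send an input with size in `W` to an input whose size
is not in `S` or is in a block which comes at least three blocks before; inputs of the second kind
are decided in a short time by the machine above. So `L_W` would be in `P`, a contradiction.

The definitions of machines and of the classes are those of `Pool.Agent.H581R2.Model`.
-/

set_option autoImplicit false

namespace Pool.Agent.Results.MP_25fb88_lc.LadnerRealH67

open Pool.Agent.H581R2 Pool.Agent.V7H67.LR

/-- Ladner's theorem over the reals: if `PR ≠ NPR`, there is a problem in `NPR` which is not in
`PR` and is not complete in `NPR` for the reductions computable in polynomial time. -/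
theorem result : PR ≠ NPR → ∃ L : Set RInf, L ∈ NPR ∧ L ∉ PR ∧ ¬ NPRComplete L := by
  intro hne
  obtain ⟨L, hL, hLP⟩ : ∃ L ∈ NPR, L ∉ PR := by
    by_contra hcon
    push Not at hcon
    exact hne (Set.Subset.antisymm PR_subset_NPR hcon)
  obtain ⟨S, hS, hred⟩ := exists_intermediate hL hLP
  exact ⟨cut L S, cut_mem_NPR hL S, hS, fun hc => hred (hc.2 L hL)⟩

end Pool.Agent.Results.MP_25fb88_lc.LadnerRealH67
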